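import Mathlib

set_option autoImplicit false
set_option linter.unnecessarySeqFocus false
set_option linter.unusedSimpArgs false
set_option linter.unusedTactic false

namespace Pool.Agent.Results.MP_be8152_al.BothPartsFail

universe w

section Defs

variable {k : Type w} [Field k] {V : Type w} [AddCommGroup V] [Module k V]

/-- `(V, μ)` is a 4-algebra: `μ` is commutative and `(x²)² = 0`. -/
def IsFourAlgebra (μ : V →ₗ[k] V →ₗ[k] V) : Prop :=
  (∀ x y, μ x y = μ y x) ∧ ∀ x, μ (μ x x) (μ x x) = 0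

/-- `Ω` is a Bernstein operator on `(V, μ)`. -/
def IsBernstein (μ : V →ₗ[k] V →ₗ[k] V) (Ω : V →ₗ[k] V) : Prop :=
  Ω ∘ₗ Ω = Ω ∧ ∀ x, μ (μ x x) (Ω x) = 0 ∧ μ (Ω x) (Ω x) + Ω (μ x x) = μ x x

/-- The relation `Ω ≈ Ω'`. -/
def Equivalent (μ : V →ₗ[k] V →ₗ[k] V) (Ω Ω' : V →ₗ[k] V) : Prop :=
  ∃ f : V ≃ₗ[k] V, (∀ x y, f (μ x y) = μ (f x) (f y)) ∧
    ∃ v₀ : V, (∀ x, Ω' x = f (Ω (f.symm x)) - (2 : k) • μ x v₀) ∧ Ω' v₀ = v₀ - μ v₀ v₀

end Defs

section NoOperator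

variable (k : Type w) [Field k]

/-- the 4-algebra on `k^8` with basis `x, y, a, b, c, d, e, f` and nonzero products `x² = a`,
`xy = b`, `y² = c`, `ax = d`, `cy = e`, `dx = f`, `b² = f`, `ac = -2f`. -/
def mu8 : (Fin 8 → k) →ₗ[k] (Fin 8 → k) →ₗ[k] (Fin 8 → k) :=
  LinearMap.mk₂ k
    (fun v w => ![0, 0, v 0 * w 0, v 0 * w 1 + v 1 * w 0, v 1 * w 1, v 2 * w 0 + v 0 * w 2,
      v 4 * w 1 + v 1 * w 4, v 5 * w 0 + v 0 * w 5 + v 3 * w 3 - 2 * (v 2 * w 4 + v 4 * w 2)])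
    (by intro a b c; ext i; fin_cases i <;> simp <;> ring)
    (by intro a b c; ext i; fin_cases i <;> simp <;> ring)
    (by intro a b c; ext i; fin_cases i <;> simp <;> ring)
    (by intro a b c; ext i; fin_cases i <;> simp <;> ring)

variable {k}

lemma mu8_apply (v w : Fin 8 → k) : mu8 k v w =
    ![0, 0, v 0 * w 0, v 0 * w 1 + v 1 * w 0, v 1 * w 1, v 2 * w 0 + v 0 * w 2,
      v 4 * w 1 + v 1 * w 4, v 5 * w 0 + v 0 * w 5 + v 3 * w 3 - 2 * (v 2 * w 4 + v 4 * w 2)] := rfl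

lemma mu8_four : IsFourAlgebra (mu8 k) := by
  constructor
  · intro v w
    ext i
    fin_cases i <;> simp [mu8_apply] <;> ring
  · intro v
    ext i
    fin_cases i <;> simp [mu8_apply] <;> ring

lemma no_operator (h2 : (2 : k) ≠ 0) (Ω : (Fin 8 → k) →ₗ[k] (Fin 8 → k)) :
    ¬ IsBernstein (mu8 k) Ω := by
  rintro ⟨hidem, h⟩
  have hid : ∀ x, Ω (Ω x) = Ω x := fun x => by
    have := congrArg (fun g : (Fin 8 → k) →ₗ[k] (Fin 8 → k) => g x) hidem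
    exact this
  have hcomm := (mu8_four (k := k)).1
  -- `U² ⊆ W`
  have hUU : ∀ u, Ω u = u → Ω (mu8 k u u) = 0 := by
    intro u hu
    have h1 := (h u).2
    rw [hu] at h1
    exact left_eq_add.mp h1.symm
  -- `W² ⊆ U`
  have hWW : ∀ w, Ω w = 0 → Ω (mu8 k w w) = mu8 k w w := by
    intro w hw
    have h1 := (h w).2
    simp only [hw, map_zero, zero_add] at h1
    exact h1
  have two_inj : ∀ x y : Fin 8 → k, x + x = y + y → x = y := by
    intro x y hxy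
    ext i
    have := congrFun hxy i
    simp only [Pi.add_apply] at this
    have h3 : (2 : k) * (x i - y i) = 0 := by linear_combination this
    rcases mul_eq_zero.mp h3 with h4 | h4
    · exact absurd h4 h2
    · exact sub_eq_zero.mp h4
  have hWW' : ∀ w w', Ω w = 0 → Ω w' = 0 → Ω (mu8 k w w') = mu8 k w w' := by
    intro w w' hw hw'
    have h1 := hWW (w + w') (by rw [map_add, hw, hw', add_zero])
    simp only [map_add, LinearMap.add_apply] at h1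
    rw [hWW w hw, hWW w' hw', hcomm w' w] at h1
    apply two_inj
    linear_combination (exp := 1) h1
  have hUW : ∀ u w, Ω u = u → Ω w = 0 → Ω (mu8 k u w) = mu8 k u w := by
    intro u w hu hw
    have h1 := (h (u + w)).2
    rw [map_add Ω, hu, hw, add_zero] at h1
    simp only [map_add, LinearMap.add_apply] at h1
    rw [hUU u hu, hWW w hw, hcomm w u] at h1
    apply two_inj
    linear_combination (exp := 1) h1
  -- `U` is contained in `V²`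
  have hU0 : ∀ u, Ω u = u → u 0 = 0 ∧ u 1 = 0 := by
    intro u hu
    have h1 := (h u).1
    rw [hu] at h1
    have h3 := congrFun h1 5
    have h4 := congrFun h1 6
    simp [mu8_apply] at h3 h4
    exact ⟨h3, h4⟩
  let x : Fin 8 → k := ![1, 0, 0, 0, 0, 0, 0, 0]
  let y : Fin 8 → k := ![0, 1, 0, 0, 0, 0, 0, 0]
  obtain ⟨w₁, hw₁⟩ : ∃ w, w = x - Ω x := ⟨_, rfl⟩
  obtain ⟨w₂, hw₂⟩ : ∃ w, w = y - Ω y := ⟨_, rfl⟩
  have e1 : Ω w₁ = 0 := by rw [hw₁, map_sub, hid, sub_self]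
  have e2 : Ω w₂ = 0 := by rw [hw₂, map_sub, hid, sub_self]
  obtain ⟨hx0, hx1⟩ := hU0 (Ω x) (hid x)
  obtain ⟨hy0, hy1⟩ := hU0 (Ω y) (hid y)
  have a0 : w₁ 0 = 1 := by rw [hw₁, Pi.sub_apply, hx0]; simp [x]
  have a1 : w₁ 1 = 0 := by rw [hw₁, Pi.sub_apply, hx1]; simp [x]
  have b0 : w₂ 0 = 0 := by rw [hw₂, Pi.sub_apply, hy0]; simp [y]
  have b1 : w₂ 1 = 1 := by rw [hw₂, Pi.sub_apply, hy1]; simp [y]
  have u12 := hWW' w₁ w₂ e1 e2
  have f1 := hUU _ u12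
  have u11 := hWW w₁ e1
  have u111 := hUW _ _ u11 e1
  have f2 := hUW _ _ u111 e1
  have g1 : mu8 k (mu8 k w₁ w₂) (mu8 k w₁ w₂) = ![0, 0, 0, 0, 0, 0, 0, 1] := by
    ext i
    fin_cases i <;> simp [mu8_apply, a0, a1, b0, b1]
  have g2 : mu8 k (mu8 k (mu8 k w₁ w₁) w₁) w₁ = ![0, 0, 0, 0, 0, 0, 0, 1] := by
    ext i
    fin_cases i <;> simp [mu8_apply, a0, a1]
  rw [g1] at f1
  rw [g2, f1] at f2
  have := congrFun f2 7
  simp at this

end NoOperator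

section ManyClasses

variable (k : Type w) [Field k]

/-- the algebra on `k^4` with basis `e₀, e₁, e₂, e₃` whose only nonzero product is `e₀² = e₁` -/
def mu4 : (Fin 4 → k) →ₗ[k] (Fin 4 → k) →ₗ[k] (Fin 4 → k) :=
  LinearMap.mk₂ k (fun v w => ![0, v 0 * w 0, 0, 0])
    (by intro a b c; ext i; fin_cases i <;> simp <;> ring)
    (by intro a b c; ext i; fin_cases i <;> simp <;> ring)
    (by intro a b c; ext i; fin_cases i <;> simp <;> ring)
    (by intro a b c; ext i; fin_cases i <;> simp <;> ring)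

variable {k}

lemma mu4_apply (v w : Fin 4 → k) : mu4 k v w = ![0, v 0 * w 0, 0, 0] := rfl

lemma mu4_four : IsFourAlgebra (mu4 k) := by
  constructor
  · intro v w
    ext i
    fin_cases i <;> simp [mu4_apply] <;> ring
  · intro v
    ext i
    fin_cases i <;> simp [mu4_apply]

/-- a diagonal operator -/
def dg (d : Fin 4 → k) : (Fin 4 → k) →ₗ[k] (Fin 4 → k) where
  toFun v := d * v
  map_add' := mul_add d
  map_smul' r v := by simp

lemma dg_apply (d v : Fin 4 → k) (i : Fin 4) : dg d v i = d i * v i := rfl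

lemma dg_bernstein (d : Fin 4 → k) (h : ∀ i, d i * d i = d i) (h01 : d 0 + d 1 = 1) :
    IsBernstein (mu4 k) (dg d) := by
  constructor
  · ext v i
    simp only [LinearMap.comp_apply, dg_apply]
    rw [← mul_assoc, h]
  · intro x
    constructor
    · ext i
      fin_cases i <;> simp [mu4_apply]
    · ext i
      fin_cases i <;> simp [mu4_apply, dg_apply]
      linear_combination (x 0) ^ 2 * (h 0) + (x 0) ^ 2 * h01

/-- the six operators -/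
def ops (i : Fin 6) : Fin 4 → k :=
  match i with
  | 0 => ![0, 1, 0, 0]
  | 1 => ![0, 1, 1, 0]
  | 2 => ![0, 1, 1, 1]
  | 3 => ![1, 0, 0, 0]
  | 4 => ![1, 0, 1, 0]
  | 5 => ![1, 0, 1, 1]

/-- first invariant -/
def I0 (Ω : (Fin 4 → k) →ₗ[k] (Fin 4 → k)) : Prop := ∀ x, (Ω x) 0 = 0
/-- second invariant -/
def I1 (Ω : (Fin 4 → k) →ₗ[k] (Fin 4 → k)) : Prop :=
  ∀ x, x 0 = 0 → (Ω x) 0 = 0 ∧ (Ω x) 2 = 0 ∧ (Ω x) 3 = 0
/-- third invariant -/
def I2 (Ω : (Fin 4 → k) →ₗ[k] (Fin 4 → k)) : Prop :=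
  ∀ x, x 0 = 0 → (Ω x - x) 0 = 0 ∧ (Ω x - x) 2 = 0 ∧ (Ω x - x) 3 = 0

lemma aut_zero (f : (Fin 4 → k) ≃ₗ[k] (Fin 4 → k))
    (hf : ∀ x y, f (mu4 k x y) = mu4 k (f x) (f y)) (x : Fin 4 → k) (hx : x 0 = 0) :
    (f x) 0 = 0 := by
  have h1 := hf x (f.symm ![1, 0, 0, 0])
  have h2 : mu4 k x (f.symm ![1, 0, 0, 0]) = 0 := by
    ext i
    fin_cases i <;> simp [mu4_apply, hx]
  rw [h2, map_zero, LinearEquiv.apply_symm_apply] at h1
  have h3 := congrFun h1 1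
  simp [mu4_apply] at h3
  exact h3.symm

lemma aut_line (f : (Fin 4 → k) ≃ₗ[k] (Fin 4 → k))
    (hf : ∀ x y, f (mu4 k x y) = mu4 k (f x) (f y)) (x : Fin 4 → k)
    (hx : x 0 = 0 ∧ x 2 = 0 ∧ x 3 = 0) :
    (f x) 0 = 0 ∧ (f x) 2 = 0 ∧ (f x) 3 = 0 := by
  have h1 : x = x 1 • mu4 k ![1, 0, 0, 0] ![1, 0, 0, 0] := by
    ext i
    fin_cases i <;> simp [mu4_apply, hx]
  rw [h1, map_smul, hf]
  simp [mu4_apply]

lemma aut_symm (f : (Fin 4 → k) ≃ₗ[k] (Fin 4 → k))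
    (hf : ∀ x y, f (mu4 k x y) = mu4 k (f x) (f y)) :
    ∀ x y, f.symm (mu4 k x y) = mu4 k (f.symm x) (f.symm y) := by
  intro x y
  rw [LinearEquiv.symm_apply_eq, hf, LinearEquiv.apply_symm_apply, LinearEquiv.apply_symm_apply]

/-- a weaker, symmetric relation -/
def Weak (Ω Ω' : (Fin 4 → k) →ₗ[k] (Fin 4 → k)) : Prop :=
  ∃ f : (Fin 4 → k) ≃ₗ[k] (Fin 4 → k), (∀ x y, f (mu4 k x y) = mu4 k (f x) (f y)) ∧
    ∃ v : Fin 4 → k, ∀ x, Ω' x = f (Ω (f.symm x)) - (2 : k) • mu4 k x v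

lemma Weak.of {Ω Ω' : (Fin 4 → k) →ₗ[k] (Fin 4 → k)} (h : Equivalent (mu4 k) Ω Ω') :
    Weak Ω Ω' := by
  obtain ⟨f, hf, v, hΩ, _⟩ := h
  exact ⟨f, hf, v, hΩ⟩

lemma Weak.symm {Ω Ω' : (Fin 4 → k) →ₗ[k] (Fin 4 → k)} (h : Weak Ω Ω') : Weak Ω' Ω := by
  obtain ⟨f, hf, v, hΩ⟩ := h
  refine ⟨f.symm, aut_symm f hf, -(f.symm v), fun x => ?_⟩
  rw [LinearEquiv.symm_symm, hΩ, LinearEquiv.symm_apply_apply, map_sub, map_smul, map_neg,
    aut_symm f hf, LinearEquiv.symm_apply_apply, LinearEquiv.symm_apply_apply]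
  simp

lemma inv0 {Ω Ω' : (Fin 4 → k) →ₗ[k] (Fin 4 → k)} (h : Weak Ω Ω') (h0 : I0 Ω) :
    I0 Ω' := by
  obtain ⟨f, hf, v, hΩ⟩ := h
  intro x
  rw [hΩ]
  simp [mu4_apply, aut_zero f hf _ (h0 _)]

lemma inv1 {Ω Ω' : (Fin 4 → k) →ₗ[k] (Fin 4 → k)} (h : Weak Ω Ω') (h0 : I1 Ω) :
    I1 Ω' := by
  obtain ⟨f, hf, v, hΩ⟩ := h
  intro x hx
  have h1 := aut_line f hf _ (h0 (f.symm x) (aut_zero f.symm (aut_symm f hf) x hx))
  have h2 : mu4 k x v = 0 := by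
    ext i
    fin_cases i <;> simp [mu4_apply, hx]
  rw [hΩ, h2, smul_zero, sub_zero]
  exact h1

lemma inv2 {Ω Ω' : (Fin 4 → k) →ₗ[k] (Fin 4 → k)} (h : Weak Ω Ω') (h0 : I2 Ω) :
    I2 Ω' := by
  obtain ⟨f, hf, v, hΩ⟩ := h
  intro x hx
  have h1 := aut_line f hf _ (h0 (f.symm x) (aut_zero f.symm (aut_symm f hf) x hx))
  have h2 : mu4 k x v = 0 := by
    ext i
    fin_cases i <;> simp [mu4_apply, hx]
  rw [map_sub, LinearEquiv.apply_symm_apply] at h1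
  rw [hΩ, h2, smul_zero, sub_zero]
  exact h1

lemma I0_dg (d : Fin 4 → k) : I0 (dg d) ↔ d 0 = 0 := by
  constructor
  · intro h
    have := h ![1, 0, 0, 0]
    rw [dg_apply] at this
    simpa using this
  · intro h x
    rw [dg_apply, h, zero_mul]

lemma I1_dg (d : Fin 4 → k) : I1 (dg d) ↔ d 2 = 0 ∧ d 3 = 0 := by
  constructor
  · intro h
    have h1 := h ![0, 0, 1, 1] rfl
    simp only [dg_apply] at h1
    simpa using h1
  · rintro ⟨h2, h3⟩ x hx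
    simp only [dg_apply, h2, h3, hx, mul_zero, zero_mul, and_self]

lemma I2_dg (d : Fin 4 → k) : I2 (dg d) ↔ d 2 = 1 ∧ d 3 = 1 := by
  constructor
  · intro h
    have h1 := h ![0, 0, 1, 1] rfl
    simp only [dg_apply, Pi.sub_apply] at h1
    obtain ⟨_, h3, h4⟩ := h1
    exact ⟨by simpa [sub_eq_zero] using h3, by simpa [sub_eq_zero] using h4⟩
  · rintro ⟨h2, h3⟩ x hx
    simp only [dg_apply, Pi.sub_apply, h2, h3, hx, mul_zero, one_mul, sub_self, and_self]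

lemma ops_bernstein (i : Fin 6) : IsBernstein (mu4 k) (dg (ops i)) := by
  apply dg_bernstein
  · intro j
    fin_cases i <;> fin_cases j <;> simp [ops]
  · fin_cases i <;> simp [ops]

lemma ops_inequiv (i j : Fin 6) (hij : i ≠ j) :
    ¬ Equivalent (mu4 k) (dg (ops i)) (dg (ops j)) := by
  intro h
  have hw := Weak.of h
  have a0 : I0 (dg (ops i : Fin 4 → k)) ↔ I0 (dg (ops j : Fin 4 → k)) :=
    ⟨inv0 hw, inv0 hw.symm⟩
  have a1 : I1 (dg (ops i : Fin 4 → k)) ↔ I1 (dg (ops j : Fin 4 → k)) :=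
    ⟨inv1 hw, inv1 hw.symm⟩
  have a2 : I2 (dg (ops i : Fin 4 → k)) ↔ I2 (dg (ops j : Fin 4 → k)) :=
    ⟨inv2 hw, inv2 hw.symm⟩
  rw [I0_dg, I0_dg] at a0
  rw [I1_dg, I1_dg] at a1
  rw [I2_dg, I2_dg] at a2
  fin_cases i <;> fin_cases j <;> simp [ops] at a0 a1 a2 hij

end ManyClasses

/-- **Both parts of the question fail, over every field `k` of characteristic not two**: there is a
4-algebra structure on `k^8` without any Bernstein operator, and a 4-algebra structure on `k^4` with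
(at least) `6 > 4 + 1` pairwise inequivalent Bernstein operators. -/
theorem result (k : Type w) [Field k] (h2 : (2 : k) ≠ 0) :
    (∃ μ : (Fin 8 → k) →ₗ[k] (Fin 8 → k) →ₗ[k] (Fin 8 → k),
      IsFourAlgebra μ ∧ ¬ ∃ Ω : (Fin 8 → k) →ₗ[k] (Fin 8 → k), IsBernstein μ Ω) ∧
    (∃ μ : (Fin 4 → k) →ₗ[k] (Fin 4 → k) →ₗ[k] (Fin 4 → k),
      IsFourAlgebra μ ∧ ∃ Ω : Fin 6 → ((Fin 4 → k) →ₗ[k] (Fin 4 → k)),
        (∀ i, IsBernstein μ (Ω i)) ∧ ∀ i j, i ≠ j → ¬ Equivalent μ (Ω i) (Ω j)) :=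
  ⟨⟨mu8 k, mu8_four, fun ⟨Ω, h⟩ => no_operator h2 Ω h⟩,
    ⟨mu4 k, mu4_four, fun i => dg (ops i), ops_bernstein, ops_inequiv⟩⟩

end Pool.Agent.Results.MP_be8152_al.BothPartsFail
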